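import Mathlib

namespace Pool.Agent.Results.MP_f72ff1_an.Fail

open MeasureTheory Metric Set
open scoped ENNReal NNReal Pointwise

/-- the normalised surface measure on the unit sphere induced by a measure `μ` -/
noncomputable def sph {W : Type} [NormedAddCommGroup W] [NormedSpace ℝ W] [MeasurableSpace W]
    (μ : Measure W) : Measure (sphere (0 : W) 1) := (μ.toSphere univ)⁻¹ • μ.toSphere

variable {V : Type} [NormedAddCommGroup V] [InnerProductSpace ℝ V] [FiniteDimensional ℝ V]
  [MeasurableSpace V] [BorelSpace V]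

/-- the normalised surface measure on the unit sphere of `V × V` with its Euclidean norm -/
noncomputable def σ : Measure (sphere (0 : WithLp 2 (V × V)) 1) := sph volume

/-- the bilinear spherical average -/
noncomputable def A (t : ℝ) (f g : V → ℝ) (x : V) : ℝ :=
  ∫ w, f (x - t • w.1.fst) * g (x - t • w.1.snd) ∂σ

/-- the lacunary bilinear spherical maximal function -/
noncomputable def M (f g : V → ℝ) (x : V) : ℝ≥0∞ := ⨆ l : ℤ, ‖A (2 ^ l) f g x‖ₑ

/-- measurable, bounded, with bounded support -/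
def Nice (f : V → ℝ) : Prop :=
  Measurable f ∧ ∃ R, ∀ x, |f x| ≤ R ∧ (R < ‖x‖ → f x = 0)

theorem result (hd : 1 ≤ Module.finrank ℝ V) (q : ℝ) (hq : 1 ≤ q) :
    ¬ ∃ C : ℝ≥0, ∀ f g : V → ℝ, Nice f → Nice g →
      eLpNorm (M f g) (ENNReal.ofReal (q / (q + 1))) volume ≤
        C * eLpNorm f 1 volume * eLpNorm g (ENNReal.ofReal q) volume := by
  rintro ⟨C, hC⟩
  have : Nontrivial V := Module.finrank_pos_iff.1 hd
  set d := Module.finrank ℝ V with hd'
  have : IsFiniteMeasure (σ (V := V)) := by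
    refine ⟨?_⟩
    rw [σ, sph, Measure.smul_apply, smul_eq_mul]
    exact (ENNReal.inv_mul_le_one _).trans_lt ENNReal.one_lt_top
  set ω := (volume : Measure V).real (ball 0 1) with hω
  have ω0 : 0 < ω := ENNReal.toReal_pos (measure_ball_pos _ _ one_pos).ne' measure_ball_lt_top.ne
  have vb : ∀ (c : V) r, 0 ≤ r → volume (ball c r) = ENNReal.ofReal (r ^ d * ω) := fun c r h => by
    rw [Measure.addHaar_ball _ _ h, ENNReal.ofReal_mul (by positivity), hω,
      ofReal_measureReal measure_ball_lt_top.ne]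
  have cap : ∃ κ : ℝ, 0 < κ ∧ ∀ (a : V) (ρ : ℝ), ‖a‖ ≤ 1 / 2 → 0 < ρ → ρ ≤ 1 →
      κ * ρ ^ d ≤ (σ (V := V)).real {w | ‖w.1.fst - a‖ < ρ} := by
    obtain ⟨e, he⟩ := exists_norm_eq V (show (0 : ℝ) ≤ 3 / 8 by norm_num)
    have T0 : ((volume : Measure (WithLp 2 (V × V))).toSphere univ) ≠ 0 := by
      rw [Ne, Measure.measure_univ_eq_zero]
      exact Measure.toSphere_ne_zero _
    set T := ((volume : Measure (WithLp 2 (V × V))).toSphere univ) with hT
    have T1 : T ≠ ⊤ := measure_ne_top _ _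
    have T2 := ENNReal.toReal_pos T0 T1
    refine ⟨T.toReal⁻¹ * ((1 / 8) ^ d * ω * ((1 / 8) ^ d * ω)), by positivity, fun a ρ ha h0 h1 => ?_⟩
    have ms : MeasurableSet {w : sphere (0 : WithLp 2 (V × V)) 1 | ‖w.1.fst - a‖ < ρ} :=
      (isOpen_lt (by fun_prop) continuous_const).measurableSet
    have a1 : 3 / 4 ≤ 1 - ‖a‖ ^ 2 := by nlinarith [norm_nonneg a]
    set k := √(1 - ‖a‖ ^ 2) with hk
    have k2 : k ^ 2 = 1 - ‖a‖ ^ 2 := Real.sq_sqrt (by linarith)
    have k0 : 4 / 5 ≤ k := Real.le_sqrt_of_sq_le (by linarith)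
    let S : Set (V × V) := {p | p.2 ∈ ball e (1 / 8) ∧ p.1 ∈ ball ((‖p.2‖ / k) • a) (ρ / 8)}
    have mS : MeasurableSet S := by
      refine (IsOpen.inter (isOpen_ball.preimage continuous_snd) ?_).measurableSet
      exact isOpen_lt (by fun_prop) continuous_const
    have vS : volume S = ENNReal.ofReal ((ρ / 8) ^ d * ω) * ENNReal.ofReal ((1 / 8) ^ d * ω) := by
      rw [Measure.volume_eq_prod, Measure.prod_apply_symm mS, ← vb e (1 / 8) (by norm_num),
        ← setLIntegral_const, ← lintegral_indicator measurableSet_ball]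
      refine lintegral_congr fun v => ?_
      by_cases hv : v ∈ ball e (1 / 8)
      · rw [indicator_of_mem hv, ← vb ((‖v‖ / k) • a) _ (by positivity)]
        congr 1
        ext u
        exact ⟨fun h => h.2, fun h => ⟨hv, h⟩⟩
      · rw [indicator_of_notMem hv]
        convert measure_empty (μ := (volume : Measure V))
        ext u
        exact ⟨fun h => hv h.1, fun h => h.elim⟩
    have sub : WithLp.ofLp ⁻¹' S ⊆ Ioo (0 : ℝ) 1 • (Subtype.val ''
        {w : sphere (0 : WithLp 2 (V × V)) 1 | ‖w.1.fst - a‖ < ρ}) := by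
      rintro p ⟨h2, h3⟩
      rw [mem_ball_iff_norm] at h2 h3
      change ‖p.snd - e‖ < _ at h2
      change ‖p.fst - (‖p.snd‖ / k) • a‖ < _ at h3
      have n1 : 1 / 4 ≤ ‖p.snd‖ := by linarith [norm_sub_norm_le e p.snd, norm_sub_rev e p.snd]
      have n2 : ‖p.snd‖ ≤ 1 / 2 := by linarith [norm_sub_norm_le p.snd e]
      set s := ‖p.snd‖ / k with hs
      have s0 : 0 ≤ s := by positivity
      have s1 : s ≤ 5 / 8 := by rw [hs, div_le_iff₀ (by linarith)]; linarith
      let p0 : WithLp 2 (V × V) := WithLp.toLp 2 (s • a, p.snd)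
      have n3 : ‖p0‖ = s := by
        rw [← sq_eq_sq₀ (norm_nonneg _) s0, WithLp.prod_norm_sq_eq_of_L2]
        change ‖s • a‖ ^ 2 + ‖p.snd‖ ^ 2 = _
        have : ‖p.snd‖ = s * k := by rw [hs]; field_simp
        rw [norm_smul, Real.norm_of_nonneg s0, this, mul_pow, mul_pow, k2]; ring
      have n4 : ‖p - p0‖ = ‖p.fst - s • a‖ := by
        rw [← sq_eq_sq₀ (norm_nonneg _) (norm_nonneg _), WithLp.prod_norm_sq_eq_of_L2]
        change ‖p.fst - s • a‖ ^ 2 + ‖p.snd - p.snd‖ ^ 2 = _
        simp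
      have n5 : |‖p‖ - s| < ρ / 8 := by
        rw [← n3]; exact (abs_norm_sub_norm_le _ _).trans_lt (by rw [n4]; exact h3)
      have n6 : 1 / 4 ≤ ‖p‖ := n1.trans (WithLp.norm_snd_le _ p)
      have n7 : 0 < ‖p‖ := by linarith
      refine ⟨‖p‖, ⟨n7, by linarith [(abs_lt.1 n5).2]⟩, ‖p‖⁻¹ • p,
        ⟨⟨‖p‖⁻¹ • p, by simp [norm_smul, n7.ne']⟩, ?_, rfl⟩, by simp [smul_smul, n7.ne']⟩
      change ‖‖p‖⁻¹ • p.fst - a‖ < ρ
      have e1 : ‖p‖⁻¹ • p.fst - a = ‖p‖⁻¹ • ((p.fst - s • a) - (‖p‖ - s) • a) := by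
        rw [sub_smul, sub_sub_sub_cancel_right, smul_sub, smul_smul, inv_mul_cancel₀ n7.ne', one_smul]
      rw [e1, norm_smul, norm_inv, norm_norm, inv_mul_lt_iff₀ n7]
      refine (norm_sub_le _ _).trans_lt ?_
      rw [norm_smul, Real.norm_eq_abs]
      nlinarith [abs_nonneg (‖p‖ - s), norm_nonneg a]
    have h4 := measure_mono (μ := volume) sub
    rw [(WithLp.volume_preserving_ofLp _ _).measure_preimage mS.nullMeasurableSet, vS] at h4
    have h5 : ENNReal.ofReal ((ρ / 8) ^ d * ω) * ENNReal.ofReal ((1 / 8) ^ d * ω) ≤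
        (volume : Measure (WithLp 2 (V × V))).toSphere {w | ‖w.1.fst - a‖ < ρ} := by
      rw [Measure.toSphere_apply' _ ms]
      refine h4.trans (le_mul_of_one_le_left' ?_)
      exact_mod_cast Module.finrank_pos
    rw [← ENNReal.ofReal_mul (by positivity), ENNReal.ofReal_le_iff_le_toReal (measure_ne_top _ _)] at h5
    rw [σ, sph, measureReal_def, Measure.smul_apply, smul_eq_mul, ENNReal.toReal_mul, ENNReal.toReal_inv,
      mul_assoc]
    refine mul_le_mul_of_nonneg_left (le_of_eq_of_le ?_ h5) (by positivity)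
    rw [div_eq_mul_one_div ρ, mul_pow]; ring
  obtain ⟨κ, κ0, hκ⟩ := cap
  set b : ℝ := (1 / 2) ^ d with hb
  have b0 : 0 < b := by positivity
  have b1 : b ≤ 1 / 2 := by
    exact (pow_le_pow_of_le_one (show (0 : ℝ) ≤ 1 / 2 by norm_num) (by norm_num) hd).trans (pow_one _).le
  let G : ℕ → V → ℝ := fun N x => ∑ l ∈ Finset.range N, (ball (0 : V) (2 ^ l)).indicator (fun _ => b ^ l) x
  have i0 : ∀ l x, 0 ≤ (ball (0 : V) (2 ^ l)).indicator (fun _ => b ^ l) x := fun l x =>
    indicator_nonneg (fun _ _ => by positivity) _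
  have i1 : ∀ l x, (ball (0 : V) (2 ^ l)).indicator (fun _ => b ^ l) x ≤ b ^ l := fun l x =>
    indicator_le_self' (fun _ _ => by positivity) _
  have G0 : ∀ N x, 0 ≤ G N x := fun N x => Finset.sum_nonneg fun l _ => i0 l x
  have Gm : ∀ N, Measurable (G N) := fun N =>
    Finset.measurable_sum _ fun l _ => measurable_const.indicator measurableSet_ball
  have G1 : ∀ N, ∫⁻ x, ENNReal.ofReal (G N x) = ENNReal.ofReal (N * ω) := fun N => by
    simp only [G]
    simp_rw [ENNReal.ofReal_sum_of_nonneg fun l _ => i0 l _]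
    rw [lintegral_finsetSum _ fun l _ =>
      (measurable_const.indicator measurableSet_ball).ennreal_ofReal]
    have : ∀ l ∈ Finset.range N, ∫⁻ x, ENNReal.ofReal
        ((ball (0 : V) (2 ^ l)).indicator (fun _ => b ^ l) x) = ENNReal.ofReal ω := fun l _ => by
      have : ∀ x, ENNReal.ofReal ((ball (0 : V) (2 ^ l)).indicator (fun _ => b ^ l) x) =
          (ball (0 : V) (2 ^ l)).indicator (fun _ => ENNReal.ofReal (b ^ l)) x := fun x => by
        by_cases h : x ∈ ball (0 : V) (2 ^ l) <;> simp [h]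
      simp_rw [this]
      rw [lintegral_indicator_const measurableSet_ball, vb _ _ (by positivity),
        ← ENNReal.ofReal_mul (by positivity), ← mul_assoc, hb, ← pow_mul, ← pow_mul, mul_comm l,
        ← mul_pow]
      simp
    rw [Finset.sum_congr rfl this, ENNReal.ofReal_mul (by positivity)]
    simp
  have G2 : ∀ N x, G N x = 0 ∨ ∃ l < N, x ∈ ball (0 : V) (2 ^ l) ∧ G N x ≤ 2 * b ^ l - 2 * b ^ N := by
    intro N x
    induction N with
    | zero => exact .inl rfl
    | succ N ih =>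
      have e : G (N + 1) x = G N x + _ := Finset.sum_range_succ _ _
      have p : 0 < b ^ N := by positivity
      rw [e, pow_succ b]
      rcases ih with h | ⟨l, h1, h2, h3⟩
      · by_cases hx : x ∈ ball (0 : V) (2 ^ N)
        · exact .inr ⟨N, by omega, hx, by nlinarith [i1 N x]⟩
        · exact .inl (by rw [h, indicator_of_notMem hx, add_zero])
      · exact .inr ⟨l, by omega, h2, by nlinarith [i1 N x]⟩
  have q0 : 0 < q := by linarith
  have r0 : 0 < q / (q + 1) := by positivity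
  set K := (κ * b * (b ^ 2) ^ (1 / q)) ^ (q / (q + 1)) / 2 with hK
  have K0 : 0 < K := by positivity
  obtain ⟨N, hN⟩ := exists_nat_gt (max 2 (C * (2 / K) ^ (1 / q) / K))
  have N2 : (2 : ℝ) < N := (le_max_left _ _).trans_lt hN
  let f : V → ℝ := (ball 0 1).indicator fun _ => 1
  let g : V → ℝ := fun x => G (N + 2) x ^ (1 / q)
  have g0 : ∀ x, 0 ≤ g x := fun x => Real.rpow_nonneg (G0 _ _) _
  have gm : Measurable g := (Gm _).pow_const _
  have fm : Measurable f := measurable_const.indicator measurableSet_ball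
  have f1 : ∀ x, |f x| ≤ 1 := fun x => by
    by_cases h : x ∈ ball (0 : V) 1 <;> simp [f, h]
  have g1 : ∀ x, |g x| ≤ 2 := fun x => by
    rw [abs_of_nonneg (g0 x)]
    have : G (N + 2) x ≤ 2 := by
      rcases G2 (N + 2) x with h | ⟨l, -, -, h⟩
      · linarith
      · linarith [pow_pos b0 (N + 2), pow_le_one₀ (n := l) b0.le (by linarith)]
    refine (Real.rpow_le_rpow (G0 _ _) this (by positivity)).trans ?_
    exact (Real.rpow_le_rpow_of_exponent_le one_le_two (div_le_one_of_le₀ hq q0.le)).trans (by simp)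
  have key : ∀ x, ENNReal.ofReal K * ENNReal.ofReal (G N x) ≤ M f g x ^ (q / (q + 1)) := by
    intro x
    rcases G2 N x with h | ⟨l, h1, h2, h3⟩
    · simp [h]
    have t0 : (0 : ℝ) < 2 ^ (l + 1) := by positivity
    rw [mem_ball_zero_iff] at h2
    have h4 := hκ (((2 : ℝ) ^ (l + 1))⁻¹ • x) ((2 : ℝ) ^ (l + 1))⁻¹ (by
      rw [norm_smul, norm_inv, Real.norm_of_nonneg t0.le, inv_mul_le_iff₀ t0, pow_succ]; linarith)
      (by positivity) (inv_le_one_of_one_le₀ (one_le_pow₀ one_le_two))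
    have h5 : (b ^ (l + 2)) ^ (1 / q) * (σ (V := V)).real {w | ‖w.1.fst - ((2 : ℝ) ^ (l + 1))⁻¹ • x‖ <
        ((2 : ℝ) ^ (l + 1))⁻¹} ≤ A (2 ^ (l + 1)) f g x := by
      have ms : MeasurableSet {w : sphere (0 : WithLp 2 (V × V)) 1 |
          ‖w.1.fst - ((2 : ℝ) ^ (l + 1))⁻¹ • x‖ < ((2 : ℝ) ^ (l + 1))⁻¹} :=
        (isOpen_lt (by fun_prop) continuous_const).measurableSet
      rw [mul_comm, ← smul_eq_mul, ← integral_indicator_const _ ms]
      refine integral_mono ((integrable_const _).indicator ms) (Integrable.of_bound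
        (((fm.comp (by fun_prop)).mul (gm.comp (by fun_prop))).aestronglyMeasurable) 2
        (Filter.Eventually.of_forall fun w => ?_)) fun w => ?_
      · rw [norm_mul]
        exact (mul_le_mul (f1 _) (g1 _) (abs_nonneg _) zero_le_one).trans (by norm_num)
      · by_cases hw : w ∈ {w : sphere (0 : WithLp 2 (V × V)) 1 |
            ‖w.1.fst - ((2 : ℝ) ^ (l + 1))⁻¹ • x‖ < ((2 : ℝ) ^ (l + 1))⁻¹}
        · have e1 : x - (2 : ℝ) ^ (l + 1) • w.1.fst ∈ ball (0 : V) 1 := by
            have : x - (2 : ℝ) ^ (l + 1) • w.1.fst =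
                -((2 : ℝ) ^ (l + 1) • (w.1.fst - ((2 : ℝ) ^ (l + 1))⁻¹ • x)) := by
              rw [smul_sub, smul_smul, mul_inv_cancel₀ t0.ne', one_smul, neg_sub]
            rw [mem_ball_zero_iff, this, norm_neg, norm_smul, Real.norm_of_nonneg t0.le,
              ← lt_inv_mul_iff₀ t0, mul_one]
            exact hw
          have e2 : x - (2 : ℝ) ^ (l + 1) • w.1.snd ∈ ball (0 : V) (2 ^ (l + 2)) := by
            have : ‖w.1.snd‖ ≤ 1 := (WithLp.norm_snd_le _ w.1).trans (norm_eq_of_mem_sphere w).le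
            rw [mem_ball_zero_iff]
            refine (norm_sub_le _ _).trans_lt ?_
            rw [norm_smul, Real.norm_of_nonneg t0.le]
            have : (2 : ℝ) ^ (l + 2) = 4 * 2 ^ l := by ring
            have : (2 : ℝ) ^ (l + 1) = 2 * 2 ^ l := by ring
            nlinarith
          simp only [indicator_of_mem hw, f, indicator_of_mem e1, one_mul]
          refine Real.rpow_le_rpow (by positivity) ?_ (by positivity)
          refine le_trans (indicator_of_mem e2 (fun _ => b ^ (l + 2))).ge ?_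
          exact Finset.single_le_sum (f := fun l => (ball (0 : V) (2 ^ l)).indicator
            (fun _ => b ^ l) _) (fun l _ => i0 l _) (Finset.mem_range.2 (by omega))
        · rw [indicator_of_notMem hw]
          exact mul_nonneg (indicator_nonneg (fun _ _ => zero_le_one) _) (g0 _)
    have h6 : ((2 : ℝ) ^ (l + 1))⁻¹ ^ d = b * b ^ l := by
      rw [← pow_succ', hb, ← pow_mul, ← inv_pow, ← pow_mul, mul_comm d]; simp
    have h7 : (κ * b * (b ^ 2) ^ (1 / q)) * (b ^ l) ^ ((q + 1) / q) ≤ A (2 ^ (l + 1)) f g x := by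
      refine le_trans (le_of_eq ?_) ((mul_le_mul_of_nonneg_left h4 (by positivity)).trans h5)
      rw [h6, pow_add, Real.mul_rpow (by positivity) (by positivity), add_div, div_self q0.ne',
        Real.rpow_add (by positivity), Real.rpow_one]
      ring
    have h8 : ENNReal.ofReal (A (2 ^ (l + 1)) f g x) ≤ M f g x := by
      refine le_trans ?_ (le_iSup (fun l : ℤ => ‖A (2 ^ l) f g x‖ₑ) ((l + 1 : ℕ) : ℤ))
      rw [zpow_natCast]
      exact Real.ofReal_le_enorm _
    refine le_trans ?_ (ENNReal.rpow_le_rpow ((ENNReal.ofReal_le_ofReal h7).trans h8) r0.le)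
    rw [ENNReal.ofReal_rpow_of_nonneg (by positivity) r0.le, ← ENNReal.ofReal_mul K0.le]
    refine ENNReal.ofReal_le_ofReal ?_
    rw [Real.mul_rpow (by positivity) (by positivity), ← Real.rpow_mul (by positivity),
      show (q + 1) / q * (q / (q + 1)) = 1 by field_simp, Real.rpow_one]
    have := mul_le_mul_of_nonneg_left (h3.trans (sub_le_self _ (by positivity))) K0.le
    rw [hK] at this ⊢
    linarith
  have H := hC f g ⟨fm, 1, fun x => ⟨f1 x, fun h => indicator_of_notMem (by simpa using h.le) _⟩⟩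
    ⟨gm, 2 ^ (N + 2), fun x => ⟨(g1 x).trans (by
      simpa using pow_le_pow_right₀ (one_le_two (α := ℝ)) (show 1 ≤ N + 2 by omega)), fun h => by
      rcases G2 (N + 2) x with h1 | ⟨l, h1, h2, -⟩
      · simp only [g, h1]; exact Real.zero_rpow (by positivity)
      · rw [mem_ball_zero_iff] at h2
        linarith [pow_le_pow_right₀ (one_le_two (α := ℝ)) h1.le]⟩⟩
  have e1 : eLpNorm f 1 volume = ENNReal.ofReal ω := by
    rw [eLpNorm_indicator_const measurableSet_ball one_ne_zero ENNReal.one_ne_top, vb _ _ zero_le_one]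
    simp
  have e2 : eLpNorm g (ENNReal.ofReal q) volume = ENNReal.ofReal (((N + 2 : ℕ) * ω) ^ (1 / q)) := by
    rw [eLpNorm_eq_lintegral_rpow_enorm_toReal (by simpa using q0) ENNReal.ofReal_ne_top,
      ENNReal.toReal_ofReal q0.le, ← ENNReal.ofReal_rpow_of_nonneg (by positivity) (by positivity), ← G1]
    congr 1
    refine lintegral_congr fun x => ?_
    rw [Real.enorm_eq_ofReal (g0 x), ENNReal.ofReal_rpow_of_nonneg (g0 x) q0.le,
      ← Real.rpow_mul (G0 _ _), one_div_mul_cancel q0.ne', Real.rpow_one]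
  have e3 : ENNReal.ofReal ((K * (N * ω)) ^ (1 / (q / (q + 1)))) ≤
      eLpNorm (M f g) (ENNReal.ofReal (q / (q + 1))) volume := by
    rw [eLpNorm_eq_lintegral_rpow_enorm_toReal (by simpa using r0) ENNReal.ofReal_ne_top,
      ENNReal.toReal_ofReal r0.le, ← ENNReal.ofReal_rpow_of_nonneg (by positivity) (by positivity),
      ENNReal.ofReal_mul K0.le, ← G1, ← lintegral_const_mul _ (Gm N).ennreal_ofReal]
    exact ENNReal.rpow_le_rpow (lintegral_mono key) (by positivity)
  have e4 := e3.trans H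
  rw [e1, e2, ← ENNReal.ofReal_coe_nnreal, ← ENNReal.ofReal_mul C.coe_nonneg, ← ENNReal.ofReal_mul (by positivity),
    ENNReal.ofReal_le_ofReal_iff (by positivity), show 1 / (q / (q + 1)) = 1 + 1 / q by field_simp,
    Real.rpow_add (by positivity), Real.rpow_one] at e4
  have e5 : (((N + 2 : ℕ) : ℝ) * ω) ^ (1 / q) ≤ (2 / K) ^ (1 / q) * (K * (N * ω)) ^ (1 / q) := by
    rw [← Real.mul_rpow (by positivity) (by positivity)]
    refine Real.rpow_le_rpow (by positivity) ?_ (by positivity)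
    rw [show 2 / K * (K * (N * ω)) = 2 * N * ω by field_simp]
    push_cast
    nlinarith
  have e6 := e4.trans (mul_le_mul_of_nonneg_left e5 (by positivity))
  rw [← mul_assoc (C * ω)] at e6
  have e7 := le_of_mul_le_mul_right e6 (by positivity)
  have e8 := (div_lt_iff₀ K0).1 ((le_max_right _ _).trans_lt hN)
  nlinarith

end Pool.Agent.Results.MP_f72ff1_an.Fail
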